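import Pool.Agent.Helper1.RG.Defs

/-!
# Project RG, row F3: rigidity
-/

set_option autoImplicit false

open MeasureTheory Complex
open scoped ComplexConjugate

namespace Pool.Agent.Helper93.RG

open Pool.Agent.Helper1.RG

theorem e_add (T z w : ℂ) : e T (z + w) = e T z * e T w := by
  unfold e
  rw [mul_add, Complex.add_re, Circle.exp_add]

theorem ZI_iff (z : ℂ) : z ∈ ZI ↔ ∃ g : GaussianInt, z = GaussianInt.toComplex g := by
  constructor
  · rintro ⟨a, b, rfl⟩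
    refine ⟨⟨a, b⟩, ?_⟩
    rw [GaussianInt.toComplex_def']
  · rintro ⟨g, rfl⟩
    exact ⟨g.re, g.im, by rw [GaussianInt.toComplex_def]⟩

theorem gbI : GaussianInt.toComplex (⟨2, -1⟩ : GaussianInt) = gb := by
  rw [GaussianInt.toComplex_def', gb]
  push_cast
  ring

theorem gaI : GaussianInt.toComplex (⟨2, 1⟩ : GaussianInt) = ga := by
  rw [GaussianInt.toComplex_def', ga]
  push_cast
  ring

theorem gb_ne : gb ≠ 0 := by
  intro h
  have := congrArg Complex.re h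
  simp [gb] at this

theorem ga_mul_gb : ga * gb = 5 := by
  rw [ga, gb]
  linear_combination (-1 : ℂ) * Complex.I_sq

theorem norm_gb_ge : 2 ≤ ‖gb‖ := by
  have h := Complex.abs_re_le_norm gb
  have h2 : gb.re = 2 := by simp [gb]
  rw [h2] at h
  simpa using h

theorem exp_eighth (N : ℕ) : Real.exp ((N : ℝ) / 8) ≤ 2 ^ N := by
  have h1 : Real.exp (1 / 8) ≤ 2 := by
    rw [← Real.le_log_iff_exp_le (by norm_num)]
    have := Real.log_two_gt_d9
    linarith
  have h2 : Real.exp ((N : ℝ) / 8) = Real.exp (1 / 8) ^ N := by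
    rw [← Real.exp_nat_mul]
    congr 1
    ring
  rw [h2]
  exact pow_le_pow_left₀ (Real.exp_pos _).le h1 N

/-- two linear characters equal at `w` -/
theorem re_zero {T T' w : ℂ} (h : e T w = e T' w) (hs : ‖T - T'‖ * ‖w‖ ≤ 2) :
    (conj (T - T') * w).re = 0 := by
  unfold e at h
  obtain ⟨m, hm⟩ := Circle.exp_eq_exp.1 h
  have h1 : (conj (T - T') * w).re = m * (2 * Real.pi) := by
    rw [map_sub, sub_mul, Complex.sub_re, hm]
    ring
  have h2 : |(conj (T - T') * w).re| ≤ 2 := by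
    refine (Complex.abs_re_le_norm _).trans ?_
    rw [norm_mul, RCLike.norm_conj]
    exact hs
  have h3 := Real.pi_gt_three
  have h4 : m = 0 := by
    by_contra hne
    have h5 : (1 : ℝ) ≤ |(m : ℝ)| := by
      rw [← Int.cast_abs]
      exact_mod_cast Int.one_le_abs hne
    rw [h1, abs_mul, abs_of_pos (by positivity : (0 : ℝ) < 2 * Real.pi)] at h2
    nlinarith
  rw [h1, h4]
  simp

theorem eq_of_agree {T T' D : ℂ} (hD : D ≠ 0) (h1 : e T D = e T' D) (h2 : e T (D * I) = e T' (D * I))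
    (hs : ‖T - T'‖ * ‖D‖ ≤ 2) : T = T' := by
  have a1 := re_zero h1 hs
  have a2 := re_zero h2 (by rw [norm_mul, Complex.norm_I, mul_one]; exact hs)
  have a3 : conj (T - T') * D = 0 := by
    apply Complex.ext
    · rw [a1, Complex.zero_re]
    · rw [← mul_assoc, Complex.mul_I_re] at a2
      rw [Complex.zero_im]
      linarith
  rcases mul_eq_zero.1 a3 with h | h
  · have h5 : T - T' = 0 := by
      have := congrArg (starRingEnd ℂ) h
      simpa using this
    exact sub_eq_zero.1 h5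
  · exact absurd h hD

/-- agreement of consecutive frequencies -/
theorem step {χ : Om} {n : ℕ} {M M' : ℕ} {T T' : ℂ} (hM : 1 ≤ M) (hM' : 1 ≤ M')
    (bM : (M : ℝ) ≤ Real.exp (2 ^ n / 40)) (bM' : (M' : ℝ) ≤ Real.exp (2 ^ (n + 1) / 40))
    (bT : ‖T‖ ≤ Real.exp (2 ^ n / 40)) (bT' : ‖T'‖ ≤ Real.exp (2 ^ (n + 1) / 40))
    (h : ∀ z ∈ ZI, χ (M * z / gb ^ (2 ^ n)) = e T (M * z / gb ^ (2 ^ n)))
    (h' : ∀ z ∈ ZI, χ (M' * z / gb ^ (2 ^ (n + 1))) = e T' (M' * z / gb ^ (2 ^ (n + 1)))) :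
    T = T' := by
  have key : ∀ z ∈ ZI, e T ((M : ℂ) * M' * z / gb ^ (2 ^ n)) = e T' ((M : ℂ) * M' * z / gb ^ (2 ^ n)) := by
    intro z hz
    obtain ⟨g, rfl⟩ := (ZI_iff z).1 hz
    have e1 : (M : ℂ) * M' * GaussianInt.toComplex g / gb ^ (2 ^ n) =
        M * (GaussianInt.toComplex ((M' : GaussianInt) * g)) / gb ^ (2 ^ n) := by
      rw [map_mul, map_natCast]
      ring
    have e2 : (M : ℂ) * M' * GaussianInt.toComplex g / gb ^ (2 ^ n) =
        M' * (GaussianInt.toComplex ((M : GaussianInt) * g * (⟨2, -1⟩ : GaussianInt) ^ (2 ^ n))) /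
          gb ^ (2 ^ (n + 1)) := by
      rw [map_mul, map_mul, map_pow, gbI, map_natCast, pow_succ 2 n, mul_two, pow_add]
      have hp : gb ^ (2 ^ n) ≠ 0 := pow_ne_zero _ gb_ne
      field_simp
    rw [e1, ← h _ ((ZI_iff _).2 ⟨_, rfl⟩), ← e1, e2, h' _ ((ZI_iff _).2 ⟨_, rfl⟩)]
  have hD : (M : ℂ) * M' / gb ^ (2 ^ n) ≠ 0 := by
    refine div_ne_zero (mul_ne_zero ?_ ?_) (pow_ne_zero _ gb_ne)
    · exact_mod_cast (by omega : M ≠ 0)
    · exact_mod_cast (by omega : M' ≠ 0)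
  have k1 := key 1 ⟨1, 0, by push_cast; ring⟩
  have k2 := key I ⟨0, 1, by push_cast; ring⟩
  refine eq_of_agree hD (by rw [mul_one] at k1; exact k1) ?_ ?_
  · have e3 : (M : ℂ) * M' * I / gb ^ (2 ^ n) = (M : ℂ) * M' / gb ^ (2 ^ n) * I := by ring
    rw [e3] at k2
    exact k2
  · set N : ℕ := 2 ^ n with hN
    have c1 : (2 : ℝ) ^ n = (N : ℝ) := by rw [hN]; push_cast; ring
    have c2 : (2 : ℝ) ^ (n + 1) = 2 * (N : ℝ) := by rw [pow_succ, c1]; ring
    rw [c1] at bM bT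
    rw [c2] at bM' bT'
    have hN0 : (0 : ℝ) ≤ N := Nat.cast_nonneg _
    have d1 : ‖T - T'‖ ≤ 2 * Real.exp (2 * (N : ℝ) / 40) := by
      have d2 : Real.exp ((N : ℝ) / 40) ≤ Real.exp (2 * (N : ℝ) / 40) :=
        Real.exp_le_exp.2 (by linarith)
      linarith [norm_sub_le T T']
    have d3 : ‖(M : ℂ) * M' / gb ^ N‖ ≤ Real.exp ((N : ℝ) / 40) * Real.exp (2 * (N : ℝ) / 40) / 2 ^ N := by
      rw [norm_div, norm_mul, norm_pow, Complex.norm_natCast, Complex.norm_natCast]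
      have d4 : (2 : ℝ) ^ N ≤ ‖gb‖ ^ N := pow_le_pow_left₀ (by norm_num) norm_gb_ge N
      gcongr
    have d5 : Real.exp (2 * (N : ℝ) / 40) * (Real.exp ((N : ℝ) / 40) * Real.exp (2 * (N : ℝ) / 40)) =
        Real.exp ((N : ℝ) / 8) := by
      rw [← Real.exp_add, ← Real.exp_add]
      congr 1
      ring
    calc ‖T - T'‖ * ‖(M : ℂ) * M' / gb ^ N‖
        ≤ (2 * Real.exp (2 * (N : ℝ) / 40)) *
          (Real.exp ((N : ℝ) / 40) * Real.exp (2 * (N : ℝ) / 40) / 2 ^ N) :=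
          mul_le_mul d1 d3 (norm_nonneg _) (by positivity)
      _ = 2 * (Real.exp ((N : ℝ) / 8) / 2 ^ N) := by rw [← d5]; ring
      _ ≤ 2 * 1 := by
          have := exp_eighth N
          have h2 : (0 : ℝ) < 2 ^ N := by positivity
          have h3 : Real.exp ((N : ℝ) / 8) / 2 ^ N ≤ 1 := (div_le_one h2).2 this
          linarith
      _ = 2 := by norm_num

theorem coprime_ab : IsCoprime (⟨2, 1⟩ : GaussianInt) (⟨2, -1⟩ : GaussianInt) := by
  refine ⟨⟨1, -1⟩, -1, ?_⟩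
  decide

theorem five_eq : (5 : GaussianInt) = (⟨2, 1⟩ : GaussianInt) * (⟨2, -1⟩ : GaussianInt) := by
  decide

/-- coprimality of the part of `M` without `2 - i` -/
theorem cop {a M'' N : ℕ} (h : ¬ 5 ∣ M'') :
    IsCoprime ((⟨2, 1⟩ : GaussianInt) ^ a * (M'' : GaussianInt)) ((⟨2, -1⟩ : GaussianInt) ^ N) := by
  refine IsCoprime.mul_left (IsCoprime.pow coprime_ab) ?_
  have h1 : Nat.Coprime M'' (5 ^ N) := by
    refine Nat.Coprime.pow_right _ ?_
    exact ((Nat.Prime.coprime_iff_not_dvd Nat.prime_five).2 h).symm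
  have h2 : IsCoprime (M'' : ℤ) ((5 ^ N : ℕ) : ℤ) := Nat.isCoprime_iff_coprime.2 h1
  have h3 := h2.map (Int.castRingHom GaussianInt)
  have h4 : (⟨2, -1⟩ : GaussianInt) ^ N ∣ (Int.castRingHom GaussianInt) ((5 ^ N : ℕ) : ℤ) := by
    have : (Int.castRingHom GaussianInt) ((5 ^ N : ℕ) : ℤ) = (5 : GaussianInt) ^ N := by
      simp
    rw [this, five_eq, mul_pow]
    exact Dvd.intro_left _ rfl
  have h5 := IsCoprime.of_isCoprime_of_dvd_right h3 h4
  simpa using h5

theorem st_F3 : ST_F3 := by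
  intro χ n₀ hS
  choose! M T hM1 hMB hTB hχ using hS
  have hT : ∀ k, T (n₀ + k) = T n₀ := by
    intro k
    induction k with
    | zero => rfl
    | succ k ih =>
      rw [← ih]
      symm
      exact step (hM1 _ (by omega)) (hM1 _ (by omega)) (hMB _ (by omega)) (hMB _ (by omega))
        (hTB _ (by omega)) (hTB _ (by omega)) (hχ _ (by omega)) (hχ _ (by omega))
  have hT' : ∀ n, n₀ ≤ n → T n = T n₀ := by
    intro n hn
    obtain ⟨k, rfl⟩ := Nat.exists_eq_add_of_le hn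
    exact hT k
  refine ⟨M n₀, hM1 n₀ le_rfl, T n₀, ?_⟩
  rintro z ⟨j, hj⟩
  obtain ⟨g, hg⟩ := (ZI_iff _).1 hj
  have hz : z = GaussianInt.toComplex g / gb ^ j := by
    rw [← hg]
    have := pow_ne_zero j gb_ne
    field_simp
  -- a large level
  set n : ℕ := n₀ + 2 * j + 1 with hn
  have hnn : n₀ ≤ n := by omega
  set N : ℕ := 2 ^ n with hN
  have hNj : 2 * j < N := by
    have : n < 2 ^ n := Nat.lt_two_pow_self
    omega
  obtain ⟨a, M'', h5, hMa⟩ := Nat.exists_eq_pow_mul_and_not_dvd (n := M n)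
    (by have := hM1 n hnn; omega) 5 (by norm_num)
  have hM''1 : 1 ≤ M'' := by
    rcases Nat.eq_zero_or_pos M'' with h | h
    · exact absurd (h ▸ dvd_zero 5) h5
    · exact h
  have ha : 2 * a ≤ N := by
    have b1 : (5 : ℝ) ^ a ≤ Real.exp (2 ^ n / 40) := by
      refine le_trans ?_ (hMB n hnn)
      rw [hMa]
      push_cast
      have : (1 : ℝ) ≤ M'' := by exact_mod_cast hM''1
      nlinarith [pow_pos (by norm_num : (0 : ℝ) < 5) a]
    have b2 : Real.exp (a : ℝ) ≤ 5 ^ a := by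
      have : Real.exp (a : ℝ) = Real.exp 1 ^ a := by
        rw [← Real.exp_nat_mul]; congr 1; ring
      rw [this]
      exact pow_le_pow_left₀ (Real.exp_pos _).le (by linarith [Real.exp_one_lt_d9]) a
    have b3 := Real.exp_le_exp.1 (b2.trans b1)
    have b4 : (2 : ℝ) ^ n = (N : ℝ) := by rw [hN]; push_cast; ring
    rw [b4] at b3
    have b5 : (2 * a : ℝ) ≤ N := by
      have : (0 : ℝ) ≤ N := Nat.cast_nonneg _
      linarith
    exact_mod_cast b5
  obtain ⟨x, y, hxy⟩ := cop (a := a) (N := N) h5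
  have hxyC : GaussianInt.toComplex x * (ga ^ a * (M'' : ℂ)) + GaussianInt.toComplex y * gb ^ N = 1 := by
    have := congrArg GaussianInt.toComplex hxy
    rw [map_add, map_mul, map_mul, map_mul, map_pow, map_pow, gaI, gbI, map_natCast, map_one] at this
    exact this
  set m : ℕ := M n₀ with hm
  have hMC : (M n : ℂ) = ga ^ a * gb ^ a * (M'' : ℂ) := by
    rw [hMa]
    push_cast
    rw [← mul_pow, ga_mul_gb]
  have hsplit : (m : ℂ) * z =
      (M n : ℂ) * (GaussianInt.toComplex (x * (m : GaussianInt) * g *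
        (⟨2, -1⟩ : GaussianInt) ^ (N - a - j))) / gb ^ (2 ^ n) +
      (m : ℂ) * (GaussianInt.toComplex (y * g * (⟨2, -1⟩ : GaussianInt) ^ (N - j) *
        (⟨2, -1⟩ : GaussianInt) ^ (2 ^ n₀))) / gb ^ (2 ^ n₀) := by
    rw [map_mul, map_mul, map_mul, map_pow, map_mul, map_mul, map_mul, map_pow, map_pow, gbI,
      map_natCast, hMC, hz, ← hN]
    have p1 : gb ^ N = gb ^ (N - a - j) * gb ^ a * gb ^ j := by
      rw [← pow_add, ← pow_add]; congr 1; omega
    have p2 : gb ^ N = gb ^ (N - j) * gb ^ j := by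
      rw [← pow_add]; congr 1; omega
    have q1 : gb ^ (N - a - j) ≠ 0 := pow_ne_zero _ gb_ne
    have q2 : gb ^ a ≠ 0 := pow_ne_zero _ gb_ne
    have q3 : gb ^ j ≠ 0 := pow_ne_zero _ gb_ne
    have q4 : gb ^ (2 ^ n₀) ≠ 0 := pow_ne_zero _ gb_ne
    have r1 : ga ^ a * gb ^ a * (M'' : ℂ) * (GaussianInt.toComplex x * (m : ℂ) *
        GaussianInt.toComplex g * gb ^ (N - a - j)) / gb ^ N =
        GaussianInt.toComplex x * (ga ^ a * (M'' : ℂ)) * ((m : ℂ) * (GaussianInt.toComplex g / gb ^ j)) := by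
      rw [p1]
      field_simp
    have r2 : (m : ℂ) * (GaussianInt.toComplex y * GaussianInt.toComplex g * gb ^ (N - j) *
        gb ^ (2 ^ n₀)) / gb ^ (2 ^ n₀) =
        GaussianInt.toComplex y * gb ^ N * ((m : ℂ) * (GaussianInt.toComplex g / gb ^ j)) := by
      rw [p2]
      field_simp
    rw [r1, r2, ← add_mul, hxyC, one_mul]
  rw [hsplit, AddChar.map_add_eq_mul, e_add, hχ n hnn _ ((ZI_iff _).2 ⟨_, rfl⟩), hT' n hnn,
    hχ n₀ le_rfl _ ((ZI_iff _).2 ⟨_, rfl⟩)]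

end Pool.Agent.Helper93.RG
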